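import Pool.Agent.Run7.h744.DD.Iface

/-!
Elementary calculus for the project DD: partial derivatives of smooth compactly supported functions,
integration by parts.
-/

set_option autoImplicit false

open MeasureTheory Set Filter Topology
open scoped InnerProductSpace ContDiff

namespace Run7.h586.DD

open Run7.h744.DD
open H772R2.NS (E3 M3 L2V L2M IsTest jac L2sigma)

theorem contDiff_pd {f : E3 → ℝ} (hf : ContDiff ℝ ∞ f) (i : Fin 3) : ContDiff ℝ ∞ (pd i f) := by
  unfold pd
  exact (hf.fderiv_right (by simp)).clm_apply contDiff_const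

theorem diff_of {f : E3 → ℝ} (hf : ContDiff ℝ ∞ f) : Differentiable ℝ f :=
  hf.differentiable (by simp)

theorem tsupport_pd (f : E3 → ℝ) (i : Fin 3) : tsupport (pd i f) ⊆ tsupport f := by
  refine closure_minimal ?_ (isClosed_tsupport f)
  intro x hx
  by_contra h
  apply hx
  have := fderiv_of_notMem_tsupport (𝕜 := ℝ) h
  simp [pd, this]

theorem smPd {f : E3 → ℝ} (hf : Sm f) (i : Fin 3) : Sm (pd i f) :=
  ⟨contDiff_pd hf.smooth i, hf.compact.mono' ((subset_tsupport _).trans (tsupport_pd f i))⟩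

theorem pd_add {f g : E3 → ℝ} (hf : ContDiff ℝ ∞ f) (hg : ContDiff ℝ ∞ g) (i : Fin 3) (x : E3) :
    pd i (fun y => f y + g y) x = pd i f x + pd i g x := by
  unfold pd
  rw [show (fun y => f y + g y) = f + g from rfl,
    fderiv_add (diff_of hf x) (diff_of hg x)]
  rfl

theorem pd_sub {f g : E3 → ℝ} (hf : ContDiff ℝ ∞ f) (hg : ContDiff ℝ ∞ g) (i : Fin 3) (x : E3) :
    pd i (fun y => f y - g y) x = pd i f x - pd i g x := by
  unfold pd
  rw [show (fun y => f y - g y) = f - g from rfl,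
    fderiv_sub (diff_of hf x) (diff_of hg x)]
  rfl

theorem pd_sum {ι : Type*} (s : Finset ι) {f : ι → E3 → ℝ} (hf : ∀ j ∈ s, ContDiff ℝ ∞ (f j))
    (i : Fin 3) (x : E3) :
    pd i (fun y => ∑ j ∈ s, f j y) x = ∑ j ∈ s, pd i (f j) x := by
  unfold pd
  rw [fderiv_fun_sum (fun j hj => diff_of (hf j hj) x)]
  simp

theorem pd_comm {f : E3 → ℝ} (hf : ContDiff ℝ ∞ f) (i j : Fin 3) (x : E3) :
    pd i (pd j f) x = pd j (pd i f) x := by
  have h2 : ∀ (a b : Fin 3), pd a (pd b f) x
      = fderiv ℝ (fderiv ℝ f) x (EuclideanSpace.single a 1) (EuclideanSpace.single b 1) := by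
    intro a b
    unfold pd
    have hd : DifferentiableAt ℝ (fderiv ℝ f) x :=
      ((hf.fderiv_right (m := ∞) (by simp)).differentiable (by simp)) x
    rw [fderiv_clm_apply hd (by fun_prop)]
    simp
  rw [h2, h2]
  have := (hf.contDiffAt (x := x)).isSymmSndFDerivAt (by simpa using (WithTop.coe_le_coe.2 (le_top : (2 : ℕ∞) ≤ ⊤)))
  exact this _ _

theorem contDiff_sum' {ι : Type*} (s : Finset ι) {f : ι → E3 → ℝ}
    (hf : ∀ j ∈ s, ContDiff ℝ ∞ (f j)) : ContDiff ℝ ∞ (fun y => ∑ j ∈ s, f j y) :=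
  ContDiff.sum hf

theorem contDiff_lapS {f : E3 → ℝ} (hf : ContDiff ℝ ∞ f) : ContDiff ℝ ∞ (lapS f) := by
  unfold lapS
  exact ContDiff.sum (fun j _ => contDiff_pd (contDiff_pd hf j) j)

theorem smAdd {f g : E3 → ℝ} (hf : Sm f) (hg : Sm g) : Sm (fun y => f y + g y) :=
  ⟨hf.smooth.add hg.smooth, hf.compact.add hg.compact⟩

theorem smNeg {f : E3 → ℝ} (hf : Sm f) : Sm (fun y => - f y) := by
  refine ⟨hf.smooth.neg, ?_⟩
  refine hf.compact.mono ?_
  intro x hx
  simpa using hx

theorem smSub {f g : E3 → ℝ} (hf : Sm f) (hg : Sm g) : Sm (fun y => f y - g y) := by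
  simpa [sub_eq_add_neg] using smAdd hf (smNeg hg)

theorem smZero : Sm (fun _ : E3 => (0 : ℝ)) :=
  ⟨contDiff_const, HasCompactSupport.zero⟩

theorem smSum {ι : Type*} (s : Finset ι) {f : ι → E3 → ℝ} (hf : ∀ j ∈ s, Sm (f j)) :
    Sm (fun y => ∑ j ∈ s, f j y) := by
  classical
  induction s using Finset.induction_on with
  | empty => simpa using smZero
  | insert a s ha ih =>
    simp only [Finset.sum_insert ha]
    exact smAdd (hf a (Finset.mem_insert_self a s))
      (ih (fun j hj => hf j (Finset.mem_insert_of_mem hj)))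

theorem smLapS {f : E3 → ℝ} (hf : Sm f) : Sm (lapS f) := by
  unfold lapS
  exact smSum _ (fun j _ => smPd (smPd hf j) j)

theorem smComp {φ : E3 → E3} (hφ : Sm φ) (i : Fin 3) : Sm (fun y => φ y i) := by
  refine ⟨?_, ?_⟩
  · exact (contDiff_euclidean.1 hφ.smooth) i
  · exact hφ.compact.comp_left (g := fun v : E3 => v i) (by simp)

theorem mul_left_Sm {f g : E3 → ℝ} (hf : Sm f) (hg : ContDiff ℝ ∞ g) : Sm (fun y => f y * g y) :=
  ⟨hf.smooth.mul hg, hf.compact.mul_right⟩

theorem mul_right_Sm {f g : E3 → ℝ} (hf : ContDiff ℝ ∞ f) (hg : Sm g) : Sm (fun y => f y * g y) :=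
  ⟨hf.mul hg.smooth, hg.compact.mul_left⟩

theorem Sm_int {f : E3 → ℝ} (hf : Sm f) : Integrable f :=
  hf.smooth.continuous.integrable_of_hasCompactSupport hf.compact

/-- Integration by parts, the first factor has compact support. -/
theorem ibp_left {f g : E3 → ℝ} (hf : Sm f) (hg : ContDiff ℝ ∞ g) (i : Fin 3) :
    ∫ x, pd i f x * g x = - ∫ x, f x * pd i g x := by
  have h := integral_mul_fderiv_eq_neg_fderiv_mul_of_integrable (μ := (volume : Measure E3))
    (f := f) (g := g) (v := EuclideanSpace.single i 1)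
    (Sm_int (mul_left_Sm (smPd hf i) hg)) (Sm_int (mul_left_Sm hf (contDiff_pd hg i)))
    (Sm_int (mul_left_Sm hf hg)) (fun x _ => diff_of hf.smooth x) (fun x _ => diff_of hg x)
  unfold pd
  rw [h, neg_neg]

/-- Integration by parts, the second factor has compact support. -/
theorem ibp_right {f g : E3 → ℝ} (hf : ContDiff ℝ ∞ f) (hg : Sm g) (i : Fin 3) :
    ∫ x, pd i f x * g x = - ∫ x, f x * pd i g x := by
  have h := ibp_left hg hf i
  have e1 : ∫ x, pd i g x * f x = ∫ x, f x * pd i g x := by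
    congr 1; ext x; ring
  have e2 : ∫ x, g x * pd i f x = ∫ x, pd i f x * g x := by
    congr 1; ext x; ring
  rw [e1, e2] at h
  rw [h, neg_neg]

end Run7.h586.DD
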