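import Pool.Agent.Run7.h586.DD.Mom

/-!
Piece CUR of the project DD.
-/

set_option autoImplicit false

open MeasureTheory Set Filter Topology
open scoped InnerProductSpace ContDiff

namespace Run7.h586.DD

open Run7.h744.DD
open H772R2.NS (E3 M3 L2V L2M IsTest jac L2sigma)

theorem line_deriv {f : E3 → ℝ} (hf : ContDiff ℝ ∞ f) (l : Fin 3) (x : E3) (s : ℝ) :
    HasDerivAt (fun s : ℝ => f (x + s • EuclideanSpace.single l 1))
      (pd l f (x + s • EuclideanSpace.single l 1)) s := by
  have h1 : HasFDerivAt f (fderiv ℝ f (x + s • EuclideanSpace.single l (1 : ℝ)))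
      (x + s • EuclideanSpace.single l 1) := (diff_of hf _).hasFDerivAt
  have h2 : HasDerivAt (fun s : ℝ => x + s • (EuclideanSpace.single l (1 : ℝ) : E3))
      (EuclideanSpace.single l 1) s := by
    simpa using ((hasDerivAt_id s).smul_const (EuclideanSpace.single l (1 : ℝ) : E3)).const_add x
  exact h1.comp_hasDerivAt s h2

theorem exists_radius {F : Type} [NormedAddCommGroup F] [NormedSpace ℝ F] {f : E3 → F}
    (hf : Sm f) : ∃ R : ℝ, 0 ≤ R ∧ ∀ x, R < ‖x‖ → f x = 0 := by
  obtain ⟨R, hR⟩ := hf.compact.isCompact.isBounded.subset_closedBall 0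
  refine ⟨max R 0, le_max_right _ _, fun x hx => ?_⟩
  by_contra h
  have h1 := hR (subset_tsupport f h)
  rw [Metric.mem_closedBall, dist_zero_right] at h1
  exact absurd (lt_of_le_of_lt (h1.trans (le_max_left _ _)) hx) (lt_irrefl _)

theorem norm_line (x : E3) (l : Fin 3) {s : ℝ} (hs : 0 ≤ s) :
    s - ‖x‖ ≤ ‖x + s • (EuclideanSpace.single l (1 : ℝ) : E3)‖ := by
  have h := norm_sub_le (x + s • (EuclideanSpace.single l (1 : ℝ) : E3)) x
  rw [add_sub_cancel_left, norm_smul, Real.norm_eq_abs, abs_of_nonneg hs] at h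
  simp at h
  linarith

theorem zero_of_pd {f : E3 → ℝ} (hf : Sm f) (l : Fin 3) (h : ∀ x, pd l f x = 0) (x : E3) :
    f x = 0 := by
  obtain ⟨R, hR0, hR⟩ := exists_radius hf
  have hd : ∀ s : ℝ, HasDerivAt (fun s : ℝ => f (x + s • EuclideanSpace.single l 1)) 0 s := by
    intro s
    have := line_deriv hf.smooth l x s
    rwa [h] at this
  have hc := is_const_of_deriv_eq_zero (fun s => (hd s).differentiableAt)
    (fun s => (hd s).deriv) 0 (R + ‖x‖ + 1)
  simp only [zero_smul, add_zero] at hc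
  rw [hc]
  apply hR
  have := norm_line x l (s := R + ‖x‖ + 1) (by positivity)
  linarith

theorem pd_comp_jac {φ : E3 → E3} (hφ : ContDiff ℝ ∞ φ) (i j : Fin 3) (x : E3) :
    pd j (fun y => φ y i) x = jac φ x (i, j) := by
  unfold pd jac
  have h1 : HasFDerivAt (fun y => φ y i)
      ((EuclideanSpace.proj i : E3 →L[ℝ] ℝ).comp (fderiv ℝ φ x)) x :=
    ((EuclideanSpace.proj i : E3 →L[ℝ] ℝ).hasFDerivAt).comp x
      ((hφ.differentiable (by simp)) x).hasFDerivAt
  rw [h1.fderiv]
  rfl

theorem pd_shift (f : E3 → ℝ) (j : Fin 3) (a x : E3) :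
    pd j (fun y => f (y + a)) x = pd j f (x + a) := by
  unfold pd
  rw [fderiv_comp_add_right]

theorem smSq {f : E3 → ℝ} (hf : Sm f) : Sm (fun y => f y ^ 2) := by
  simpa [sq] using mul_left_Sm hf hf.smooth

/-- A field with `curl curl φ = 0` componentwise is curl free. -/
theorem curl_free {φ : E3 → E3} (hφ : Sm φ) (h : ∀ l x, cc φ l x = 0) (i j : Fin 3) (x : E3) :
    pd i (fun y => φ y j) x = pd j (fun y => φ y i) x := by
  have hφi : ∀ i, Sm (fun y => φ y i) := fun i => smComp hφ i
  set P : Fin 3 → Fin 3 → E3 → ℝ := fun a b => pd a (fun y => φ y b) with hP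
  have hPs : ∀ a b, Sm (P a b) := fun a b => smPd (hφi b) a
  set D : E3 → ℝ := fun y => ∑ j, pd j (fun z => φ z j) y with hD
  have hDs : Sm D := smSum _ (fun j _ => smPd (hφi j) j)
  have hPi : ∀ a b c d, Integrable (fun x => P a b x * P c d x) := fun a b c d =>
    Sm_int (mul_left_Sm (hPs a b) (hPs c d).smooth)
  -- the energy identity
  have e1 : ∀ l, ∫ x, pd l D x * φ x l = - ∑ j, ∫ x, P j j x * P l l x := by
    intro l
    rw [ibp_left (g := fun y => φ y l) hDs (hφi l).smooth l]
    congr 1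
    simp only [hD, Finset.sum_mul]
    rw [integral_finsetSum _ (fun j _ => hPi j j l l)]
  have e2 : ∀ l, ∫ x, lapS (fun y => φ y l) x * φ x l = - ∑ j, ∫ x, P j l x * P j l x := by
    intro l
    unfold lapS
    simp only [Finset.sum_mul]
    rw [integral_finsetSum, ← Finset.sum_neg_distrib]
    · refine Finset.sum_congr rfl (fun j _ => ?_)
      rw [ibp_left (g := fun y => φ y l) (smPd (hφi l) j) (hφi l).smooth j]
    · exact fun j _ => Sm_int (mul_left_Sm (smPd (smPd (hφi l) j) j) (hφi l).smooth)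
  have e3 : ∀ l, (∑ j, ∫ x, P j l x * P j l x) - ∑ j, ∫ x, P j j x * P l l x = 0 := by
    intro l
    have h0 : ∫ x, cc φ l x * φ x l = 0 := by
      simp [h l]
    have h1 : ∫ x, cc φ l x * φ x l
        = (∫ x, pd l D x * φ x l) - ∫ x, lapS (fun y => φ y l) x * φ x l := by
      rw [← integral_sub]
      · congr 1
        ext x
        rw [← sub_mul]
        rfl
      · exact Sm_int (mul_left_Sm (smPd hDs l) (hφi l).smooth)
      · exact Sm_int (mul_left_Sm (smLapS (hφi l)) (hφi l).smooth)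
    rw [h1, e1, e2] at h0
    linarith
  have e4 : ∀ a b, ∫ x, P a a x * P b b x = ∫ x, P b a x * P a b x := by
    intro a b
    have s1 : ∫ x, P a a x * P b b x = - ∫ x, φ x a * pd a (P b b) x :=
      ibp_left (g := P b b) (hφi a) (hPs b b).smooth a
    have s2 : ∫ x, P b a x * P a b x = - ∫ x, φ x a * pd b (P a b) x :=
      ibp_left (g := P a b) (hφi a) (hPs a b).smooth b
    rw [s1, s2]
    congr 2
    ext x
    congr 1
    exact pd_comm (hφi b).smooth a b x
  have e5 : ∑ a, ∑ b, ∫ x, (P b a x - P a b x) ^ 2 = 0 := by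
    have t1 : ∀ a b, ∫ x, (P b a x - P a b x) ^ 2
        = (∫ x, P b a x * P b a x) + (∫ x, P a b x * P a b x)
          - 2 * ∫ x, P b b x * P a a x := by
      intro a b
      have u1 : ∀ x, (P b a x - P a b x) ^ 2
          = P b a x * P b a x + P a b x * P a b x - 2 * (P a b x * P b a x) := by
        intro x; ring
      simp only [u1]
      have v1 : ∫ x, (P b a x * P b a x + P a b x * P a b x - 2 * (P a b x * P b a x))
          = (∫ x, (P b a x * P b a x + P a b x * P a b x)) - ∫ x, 2 * (P a b x * P b a x) :=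
        integral_sub ((hPi b a b a).add (hPi a b a b)) ((hPi a b b a).const_mul 2)
      rw [v1, integral_add (hPi b a b a) (hPi a b a b), integral_const_mul, e4 b a]
    simp only [t1]
    have t2 : ∑ a, ((∑ b, ∫ x, P b a x * P b a x) - ∑ b, ∫ x, P b b x * P a a x) = 0 :=
      Finset.sum_eq_zero (fun a _ => e3 a)
    simp only [Finset.sum_add_distrib, Finset.sum_sub_distrib, ← Finset.mul_sum] at t2 ⊢
    have t3 : ∑ a, ∑ b, ∫ x, P a b x * P a b x = ∑ a, ∑ b, ∫ x, P b a x * P b a x :=
      Finset.sum_comm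
    rw [t3]
    linarith
  have e6 : ∫ x, (P j i x - P i j x) ^ 2 = 0 := by
    have nn : ∀ a b, 0 ≤ ∫ x, (P b a x - P a b x) ^ 2 := fun a b =>
      integral_nonneg (fun x => sq_nonneg _)
    have := (Finset.sum_eq_zero_iff_of_nonneg (fun a _ => Finset.sum_nonneg (fun b _ => nn a b))).1
      e5 i (Finset.mem_univ _)
    exact (Finset.sum_eq_zero_iff_of_nonneg (fun b _ => nn i b)).1 this j (Finset.mem_univ _)
  have hS : Sm (fun x => (P j i x - P i j x) ^ 2) := smSq (smSub (hPs j i) (hPs i j))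
  have e7 : (fun x => (P j i x - P i j x) ^ 2) =ᵐ[volume] 0 :=
    (integral_eq_zero_iff_of_nonneg (fun x => sq_nonneg _) (Sm_int hS)).1 e6
  have e8 : (fun x => (P j i x - P i j x) ^ 2) = 0 :=
    (Continuous.ae_eq_iff_eq volume hS.smooth.continuous continuous_zero).1 e7
  have e9 := congrFun e8 x
  simp only [Pi.zero_apply] at e9
  have e10 := pow_eq_zero_iff (two_ne_zero) |>.1 e9
  exact (sub_eq_zero.1 e10).symm

/-- A compactly supported curl free field is orthogonal to the divergence free ones. -/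
theorem orth {φ w : E3 → E3} (hφ : Sm φ) (hw : Sm w) (hdiv : ∀ x, ∑ i, jac w x (i, i) = 0)
    (hc : ∀ i j x, pd i (fun y => φ y j) x = pd j (fun y => φ y i) x) :
    ∫ x, ∑ i, w x i * φ x i = 0 := by
  have hφi : ∀ i, Sm (fun y => φ y i) := fun i => smComp hφ i
  have hwi : ∀ i, Sm (fun y => w y i) := fun i => smComp hw i
  set e : E3 := EuclideanSpace.single 0 1 with he
  have hbd : ∀ i, ∃ M : ℝ, ∀ x, ‖pd 0 (fun y => φ y i) x‖ ≤ M := fun i =>
    (smPd (hφi i) 0).compact.exists_bound_of_continuous (smPd (hφi i) 0).smooth.continuous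
  choose M hM using hbd
  have hcsh : ∀ (f : E3 → ℝ), Sm f → ∀ s : ℝ, Continuous (fun x => f (x + s • e)) := by
    intro f hf s
    exact hf.smooth.continuous.comp (by fun_prop)
  have hsh : ∀ (f : E3 → ℝ), Sm f → ∀ s : ℝ, ContDiff ℝ ∞ (fun x => f (x + s • e)) := by
    intro f hf s
    exact hf.smooth.comp (f := fun x : E3 => x + s • e) (by fun_prop)
  -- derivative of the shifted pairing
  have hder : ∀ s : ℝ, HasDerivAt (fun s : ℝ => ∫ x, ∑ i, w x i * φ (x + s • e) i)
      (∫ x, ∑ i, w x i * pd 0 (fun y => φ y i) (x + s • e)) s := by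
    intro s
    have key := hasDerivAt_integral_of_dominated_loc_of_deriv_le (μ := (volume : Measure E3))
      (F := fun (s : ℝ) x => ∑ i, w x i * φ (x + s • e) i)
      (F' := fun (s : ℝ) x => ∑ i, w x i * pd 0 (fun y => φ y i) (x + s • e))
      (x₀ := s) (s := univ) (bound := fun x => ∑ i, |w x i| * M i) univ_mem
      ?_ ?_ ?_ ?_ ?_ ?_
    · exact key.2
    · refine Eventually.of_forall (fun r => ?_)
      exact (continuous_finsetSum _ (fun i _ => (hwi i).smooth.continuous.mul
        (hcsh _ (hφi i) r))).aestronglyMeasurable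
    · exact Sm_int (smSum _ (fun i _ => mul_left_Sm (hwi i) (hsh _ (hφi i) s)))
    · exact (continuous_finsetSum _ (fun i _ => (hwi i).smooth.continuous.mul
        (hcsh _ (smPd (hφi i) 0) s))).aestronglyMeasurable
    · refine Eventually.of_forall (fun x r _ => ?_)
      refine (norm_sum_le _ _).trans (Finset.sum_le_sum (fun i _ => ?_))
      rw [norm_mul, Real.norm_eq_abs]
      exact mul_le_mul_of_nonneg_left (hM i _) (abs_nonneg _)
    · exact integrable_finsetSum _ (fun i _ => ((Sm_int (hwi i)).abs).mul_const _)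
    · refine Eventually.of_forall (fun x r _ => ?_)
      exact HasDerivAt.fun_sum (fun i _ => (line_deriv (hφi i).smooth 0 x r).const_mul (w x i))
  have hzero : ∀ s : ℝ, ∫ x, ∑ i, w x i * pd 0 (fun y => φ y i) (x + s • e) = 0 := by
    intro s
    have h1 : ∀ x, (∑ i, w x i * pd 0 (fun y => φ y i) (x + s • e))
        = ∑ i, w x i * pd i (fun y => φ (y + s • e) 0) x := by
      intro x
      refine Finset.sum_congr rfl (fun i _ => ?_)
      rw [hc 0 i, pd_shift (fun y => φ y 0) i (s • e) x]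
    simp only [h1]
    rw [integral_finsetSum]
    · have h2 : ∀ i, ∫ x, w x i * pd i (fun y => φ (y + s • e) 0) x
          = - ∫ x, pd i (fun y => w y i) x * φ (x + s • e) 0 := by
        intro i
        rw [ibp_left (g := fun y => φ (y + s • e) 0) (hwi i) (hsh _ (hφi 0) s) i, neg_neg]
      simp only [h2, Finset.sum_neg_distrib]
      rw [← integral_finsetSum]
      · have h3 : ∀ x, (∑ i, pd i (fun y => w y i) x * φ (x + s • e) 0) = 0 := by
          intro x
          rw [← Finset.sum_mul]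
          have := hdiv x
          simp only [← pd_comp_jac hw.smooth] at this
          rw [this, zero_mul]
        simp only [h3]
        simp
      · exact fun i _ => Sm_int (mul_left_Sm (smPd (hwi i) i) (hsh _ (hφi 0) s))
    · exact fun i _ => Sm_int (mul_left_Sm (hwi i) (contDiff_pd (hsh _ (hφi 0) s) i))
  obtain ⟨R1, hR10, hR1⟩ := exists_radius hw
  obtain ⟨R2, hR20, hR2⟩ := exists_radius hφ
  have hconst := is_const_of_deriv_eq_zero (fun s => (hder s).differentiableAt)
    (fun s => by rw [(hder s).deriv, hzero s]) 0 (R1 + R2 + 1)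
  simp only [zero_smul, add_zero] at hconst
  rw [hconst]
  have h4 : ∀ x, (∑ i, w x i * φ (x + (R1 + R2 + 1) • e) i) = 0 := by
    intro x
    refine Finset.sum_eq_zero (fun i _ => ?_)
    by_cases hx : R1 < ‖x‖
    · rw [hR1 x hx]; simp
    · have := norm_line x 0 (s := R1 + R2 + 1) (by positivity)
      rw [hR2 (x + (R1 + R2 + 1) • e) (by push Not at hx; linarith)]
      simp
  simp [h4]

theorem t_CUR : S_CUR := by
  intro Ω hΩ φ hφ h w hw
  have hφi : ∀ i, Sm (fun y => φ y i) := fun i => smComp hφ i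
  have hccs : ∀ l, Sm (cc φ l) := by
    intro l
    have h1 : Sm (fun y => ∑ j, pd j (fun z => φ z j) y) :=
      smSum _ (fun j _ => smPd (hφi j) j)
    exact smSub (smPd h1 l) (smLapS (hφi l))
  have hcc : ∀ l x, cc φ l x = 0 := fun l x => zero_of_pd (hccs l) l (h l) x
  have hcf := curl_free hφ hcc
  have hm : MemLp φ 2 (volume.restrict Ω) :=
    (hφ.smooth.continuous.memLp_of_hasCompactSupport hφ.compact).restrict Ω
  have hin : ∀ v : L2V Ω, ⟪v, hm.toLp φ⟫_ℝ = ∫ x in Ω, ∑ i, v x i * φ x i := by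
    intro v
    rw [L2.inner_def]
    refine integral_congr_ae ?_
    filter_upwards [hm.coeFn_toLp] with x hx
    rw [hx, H772R2.NS.inner_E3]
  rw [← hin w]
  have hcl : IsClosed {v : L2V Ω | ⟪v, hm.toLp φ⟫_ℝ = 0} :=
    isClosed_eq (by fun_prop) continuous_const
  refine closure_minimal ?_ hcl hw
  rintro v ⟨ψ, hψ, hv⟩
  show ⟪v, hm.toLp φ⟫_ℝ = 0
  rw [hin v]
  have h1 : ∫ x in Ω, ∑ i, v x i * φ x i = ∫ x in Ω, ∑ i, ψ x i * φ x i := by
    refine integral_congr_ae ?_
    filter_upwards [hv] with x hx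
    rw [hx]
  rw [h1, setIntegral_eq_integral_of_forall_compl_eq_zero]
  · exact orth hφ ⟨hψ.smooth, hψ.compact⟩ hψ.divfree hcf
  · intro x hx
    have : ψ x = 0 := by
      by_contra hne
      exact hx (hψ.supp (subset_tsupport ψ hne))
    simp [this]

end Run7.h586.DD
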