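import Pool.Agent.Run7.h586.DD.Calc

/-!
Piece MOM of the project DD.
-/

set_option autoImplicit false

open MeasureTheory Set Filter Topology
open scoped InnerProductSpace ContDiff

namespace Run7.h586.DD

open Run7.h744.DD
open H772R2.NS (E3 M3 L2V L2M IsTest jac L2sigma)

theorem scl_Sm {b : E3 → ℝ} (hb : ContDiff ℝ ∞ b) (ht : tsupport b ⊆ Metric.closedBall 0 1)
    (x0 : E3) {ρ : ℝ} (hρ : 0 < ρ) : Sm (scl x0 ρ b) := by
  refine ⟨?_, ?_⟩
  · unfold scl
    exact hb.comp (f := fun x : E3 => ρ⁻¹ • (x - x0)) (by fun_prop)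
  · refine HasCompactSupport.intro (isCompact_closedBall x0 ρ) (fun x hx => ?_)
    unfold scl
    apply image_eq_zero_of_notMem_tsupport
    intro h
    apply hx
    have h1 := ht h
    rw [Metric.mem_closedBall, dist_zero_right, norm_smul, norm_inv, Real.norm_eq_abs,
      abs_of_pos hρ, inv_mul_le_iff₀ hρ, mul_one] at h1
    rw [Metric.mem_closedBall, dist_eq_norm]
    exact h1

theorem pd_funext {f g : E3 → ℝ} (h : ∀ x, f x = g x) (i : Fin 3) (x : E3) :
    pd i f x = pd i g x := by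
  rw [show f = g from funext h]

theorem pd_lapS {f : E3 → ℝ} (hf : ContDiff ℝ ∞ f) (l : Fin 3) (x : E3) :
    pd l (lapS f) x = lapS (pd l f) x := by
  unfold lapS
  rw [pd_sum _ (fun j _ => contDiff_pd (contDiff_pd hf j) j)]
  refine Finset.sum_congr rfl (fun j _ => ?_)
  rw [pd_comm (contDiff_pd hf j)]
  exact pd_funext (fun y => pd_comm hf l j y) j x

/-- Two partial derivatives of the same kind are symmetric. -/
theorem ibp2 {f g : E3 → ℝ} (hf : Sm f) (hg : ContDiff ℝ ∞ g) (j : Fin 3) :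
    ∫ x, pd j (pd j f) x * g x = ∫ x, f x * pd j (pd j g) x := by
  rw [ibp_left (smPd hf j) hg, ibp_left hf (contDiff_pd hg j), neg_neg]

theorem lap_symm {f g : E3 → ℝ} (hf : Sm f) (hg : ContDiff ℝ ∞ g) :
    ∫ x, lapS f x * g x = ∫ x, f x * lapS g x := by
  unfold lapS
  simp only [Finset.sum_mul, Finset.mul_sum]
  rw [integral_finsetSum, integral_finsetSum]
  · exact Finset.sum_congr rfl (fun j _ => ibp2 hf hg j)
  · exact fun j _ => Sm_int (mul_left_Sm hf (contDiff_pd (contDiff_pd hg j) j))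
  · exact fun j _ => Sm_int (mul_left_Sm (smPd (smPd hf j) j) hg)

theorem t_MOM : S_MOM := by
  intro b hb ht φ hφ x0 ρ σ hρ
  set B : Fin 3 → E3 → ℝ := fun l => scl x0 ρ (b (σ l)) with hBdef
  have hB : ∀ l, Sm (B l) := fun l => scl_Sm (hb _) (ht _) x0 hρ
  have hφi : ∀ i, Sm (fun y => φ y i) := fun i => smComp hφ i
  set D : E3 → ℝ := fun y => ∑ l, pd l (pd l (B l)) y with hDdef
  have hD : Sm D := smSum _ (fun l _ => smPd (smPd (hB l) l) l)
  have hL : ∀ x, (∑ i, cellV b x0 ρ σ x i * φ x i)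
      = ∑ i, (pd i (lapS (B i)) x * φ x i - pd i D x * φ x i) := by
    intro x
    refine Finset.sum_congr rfl (fun i _ => ?_)
    rw [← sub_mul]
    rfl
  have h1 : ∀ i, Integrable (fun x => pd i (lapS (B i)) x * φ x i) := fun i =>
    Sm_int (mul_left_Sm (smPd (smLapS (hB i)) i) (hφi i).smooth)
  have h2 : ∀ i, Integrable (fun x => pd i D x * φ x i) := fun i =>
    Sm_int (mul_left_Sm (smPd hD i) (hφi i).smooth)
  have e1 : ∀ i, ∫ x, pd i (lapS (B i)) x * φ x i
      = - ∫ x, B i x * lapS (pd i (fun y => φ y i)) x := by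
    intro i
    rw [ibp_left (g := fun y => φ y i) (smLapS (hB i)) (hφi i).smooth i]
    rw [lap_symm (hB i) (contDiff_pd (hφi i).smooth i)]
  have e2 : ∀ i, ∫ x, pd i D x * φ x i
      = - ∑ l, ∫ x, B l x * pd l (pd l (pd i (fun y => φ y i))) x := by
    intro i
    rw [ibp_left (g := fun y => φ y i) hD (hφi i).smooth i]
    congr 1
    simp only [hDdef, Finset.sum_mul]
    rw [integral_finsetSum]
    · exact Finset.sum_congr rfl (fun l _ => ibp2 (hB l) (contDiff_pd (hφi i).smooth i) l)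
    · exact fun l _ => Sm_int (mul_left_Sm (smPd (smPd (hB l) l) l)
        (contDiff_pd (hφi i).smooth i))
  have hR : ∀ l x, pd l (cc φ l) x
      = (∑ j, pd l (pd l (pd j (fun y => φ y j))) x) - lapS (pd l (fun y => φ y l)) x := by
    intro l x
    have a1 : ContDiff ℝ ∞ (fun y => ∑ j, pd j (fun z => φ z j) y) :=
      contDiff_sum' _ (fun j _ => contDiff_pd (hφi j).smooth j)
    have a2 : pd l (cc φ l) x
        = pd l (pd l (fun y => ∑ j, pd j (fun z => φ z j) y)) x
          - pd l (lapS (fun y => φ y l)) x :=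
      pd_sub (contDiff_pd a1 l) (contDiff_lapS (hφi l).smooth) l x
    rw [a2, pd_lapS (hφi l).smooth]
    congr 1
    rw [pd_funext (fun y => pd_sum _ (fun j _ => contDiff_pd (hφi j).smooth j) l y) l x]
    rw [pd_sum _ (fun j _ => contDiff_pd (contDiff_pd (hφi j).smooth j) l)]
  have e3 : ∀ l, ∫ x, B l x * pd l (cc φ l) x
      = (∑ j, ∫ x, B l x * pd l (pd l (pd j (fun y => φ y j))) x)
        - ∫ x, B l x * lapS (pd l (fun y => φ y l)) x := by
    intro l
    simp only [hR, mul_sub, Finset.mul_sum]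
    rw [integral_sub, integral_finsetSum]
    · exact fun j _ => Sm_int (mul_left_Sm (hB l)
        (contDiff_pd (contDiff_pd (contDiff_pd (hφi j).smooth j) l) l))
    · exact integrable_finsetSum _ (fun j _ => Sm_int (mul_left_Sm (hB l)
        (contDiff_pd (contDiff_pd (contDiff_pd (hφi j).smooth j) l) l)))
    · exact Sm_int (mul_left_Sm (hB l) (contDiff_lapS (contDiff_pd (hφi l).smooth l)))
  show ∫ x, ∑ i, cellV b x0 ρ σ x i * φ x i = ∑ l, ∫ x, B l x * pd l (cc φ l) x
  simp only [hL, e3]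
  have e0 : ∫ x, ∑ i, (pd i (lapS (B i)) x * φ x i - pd i D x * φ x i)
      = ∑ i, ∫ x, (pd i (lapS (B i)) x * φ x i - pd i D x * φ x i) :=
    integral_finsetSum _ (fun i _ => (h1 i).sub (h2 i))
  rw [e0]
  have e4 : ∀ i, ∫ x, (pd i (lapS (B i)) x * φ x i - pd i D x * φ x i)
      = - (∫ x, B i x * lapS (pd i (fun y => φ y i)) x)
        + ∑ l, ∫ x, B l x * pd l (pd l (pd i (fun y => φ y i))) x := by
    intro i
    rw [integral_sub (h1 i) (h2 i), e1, e2]
    ring
  simp only [e4, Finset.sum_add_distrib, Finset.sum_sub_distrib, Finset.sum_neg_distrib]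
  rw [Finset.sum_comm (f := fun i l => ∫ x, B l x * pd l (pd l (pd i (fun y => φ y i))) x)]
  ring

end Run7.h586.DD
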